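import Pool.Agent.W2helper36.HX.H

/-!
# Spectral minimal partitions: the limit exists and is the same for all bounded open sets
(MP_042a34_an)

For a bounded open set `Ω` of the plane and `1 ≤ p ≤ ∞`, `L p k Ω` is the infimum of the power mean
`(1/k ∑ λ(D_i)^p)^{1/p}` (the maximum if `p = ∞`) over all families of `k` disjoint nonempty open
subsets `D_i` of `Ω`. We show that `|Ω| L p k Ω / k` has a limit `c_p > 0` for `k → ∞`, the same for
all nonempty bounded open sets `Ω`, whatever their boundary, and that `c_p` is the infimum over `k`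
of the values of the open unit square.

Idea of the proof. Upper bound: fill `Ω` with small copies of a good partition of the square. Lower
bound: by averaging over the translates of a cutoff function every `D_i` meets a ball of radius `δ`
with `λ(D_i ∩ ball) ≤ (1 + θ) λ(D_i) + A(θ, δ)`; so every `D_i` can be replaced by its part in one
(slightly enlarged) square of a grid of side `h`. The squares inside `Ω` contribute at least `c_p`
times number squared over area, the squares that meet the boundary are estimated with the Sobolev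
inequality `κ ≤ |D| λ(D)`; sum up with Cauchy-Schwarz.
-/

set_option autoImplicit false
open Filter Topology MeasureTheory

namespace Pool.Agent.Results.MP_042a34_an.LimitExists

/-- The first eigenvalue of the Dirichlet Laplacian on `D`. -/
noncomputable def lam (D : Set ℂ) : ℝ :=
  sInf {r : ℝ | ∃ φ : ℂ → ℝ, ContDiff ℝ 1 φ ∧ HasCompactSupport φ ∧
    tsupport φ ⊆ D ∧ φ ≠ 0 ∧ r = (∫ x, ‖fderiv ℝ φ x‖ ^ 2) / (∫ x, φ x ^ 2)}

/-- The least power mean of exponent `p` of the first eigenvalues of the cells of a `k`-partition of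
`Ω` (the least maximum if `p = ∞`). For `p = 1` this is `𝔏_{k,1}(Ω)`, for `p = ∞` it is `𝔏_k(Ω)`. -/
noncomputable def L (p : ENNReal) (k : ℕ) (Ω : Set ℂ) : ℝ :=
  sInf {e : ℝ | ∃ P : Fin k → Set ℂ,
    (∀ i, IsOpen (P i) ∧ (P i).Nonempty ∧ P i ⊆ Ω) ∧
    Pairwise (Function.onFun Disjoint P) ∧
    e = if p = ⊤ then ⨆ i, lam (P i)
      else ((∑ i, lam (P i) ^ p.toReal) / (k : ℝ)) ^ (1 / p.toReal)}

/-- The open unit square. -/
def unitSquare : Set ℂ := {z | 0 < z.re ∧ z.re < 1 ∧ 0 < z.im ∧ z.im < 1}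

open Pool.Agent.W2helper36
open scoped Pointwise

theorem L_eq {N : ∀ ι : Type, Finset ι → (ι → ℝ) → ℝ} {p : ENNReal} {k : ℕ} (hk : 1 ≤ k)
    (h : ∀ x : Fin k → ℝ, (if p = ⊤ then ⨆ i, x i
      else ((∑ i, x i ^ p.toReal) / (k : ℝ)) ^ (1 / p.toReal)) = N (Fin k) Finset.univ x / k)
    (Ω : Set ℂ) : L p k Ω = HX.SN N k Ω / k := by
  have hk0 : (0 : ℝ) < k := by exact_mod_cast hk
  have h1 : {e : ℝ | ∃ P : Fin k → Set ℂ,
      (∀ i, IsOpen (P i) ∧ (P i).Nonempty ∧ P i ⊆ Ω) ∧ Pairwise (Function.onFun Disjoint P) ∧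
      e = if p = ⊤ then ⨆ i, lam (P i)
        else ((∑ i, lam (P i) ^ p.toReal) / (k : ℝ)) ^ (1 / p.toReal)} =
      (k : ℝ)⁻¹ • {r | ∃ P : Fin k → Set ℂ, HX.IsPart Ω Finset.univ P ∧
        r = N (Fin k) Finset.univ fun i => HX.lam (P i)} := by
    ext e
    rw [Set.mem_smul_set]
    constructor
    · rintro ⟨P, hP, hd, he⟩
      refine ⟨_, ⟨P, ⟨fun i _ => (hP i).1, fun i _ => (hP i).2.1, fun i _ => (hP i).2.2,
        fun i _ j _ hij => hd hij⟩, rfl⟩, ?_⟩
      rw [he, h (fun i => lam (P i)), smul_eq_mul, div_eq_inv_mul]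
      rfl
    · rintro ⟨_, ⟨P, hP, rfl⟩, he⟩
      refine ⟨P, fun i => ⟨hP.opn i (Finset.mem_univ _), hP.nem i (Finset.mem_univ _),
        hP.sub i (Finset.mem_univ _)⟩, fun i j hij =>
        hP.dis i (Finset.mem_univ _) j (Finset.mem_univ _) hij, ?_⟩
      rw [← he, h (fun i => lam (P i)), smul_eq_mul, div_eq_inv_mul]
      rfl
  unfold L HX.SN
  rw [h1, Real.sInf_smul_of_nonneg (by positivity), smul_eq_mul, div_eq_inv_mul]

theorem main_of {N : ∀ ι : Type, Finset ι → (ι → ℝ) → ℝ} {p : ENNReal}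
    (h : ∀ k : ℕ, 1 ≤ k → ∀ x : Fin k → ℝ, (if p = ⊤ then ⨆ i, x i
      else ((∑ i, x i ^ p.toReal) / (k : ℝ)) ^ (1 / p.toReal)) = N (Fin k) Finset.univ x / k)
    (hN : HX.Mean N) : ∃ c : ℝ, 0 < c ∧
      (∀ Ω : Set ℂ, IsOpen Ω → Ω.Nonempty → Bornology.IsBounded Ω →
        Tendsto (fun k : ℕ => (volume Ω).toReal * L p k Ω / (k : ℝ)) atTop (𝓝 c)) ∧
      ∀ k : ℕ, 1 ≤ k → c ≤ L p k unitSquare / (k : ℝ) := by
  refine ⟨HX.cst N, HX.cst_pos hN, fun Ω hΩ hne hb => ?_, fun k hk => ?_⟩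
  · have hq := HX.vol_pos hΩ hne hb
    have h1 := (HX.tendsto_SN hN hΩ hne hb).const_mul (volume Ω).toReal
    rw [mul_div_cancel₀ _ hq.ne'] at h1
    refine h1.congr' ?_
    filter_upwards [eventually_ge_atTop 1] with k hk
    have hk0 : (0 : ℝ) < k := by exact_mod_cast hk
    rw [L_eq hk (h k hk) Ω]
    field_simp
  · have hk0 : (0 : ℝ) < k := by exact_mod_cast hk
    have h1 := HX.cst_le_SN hN hk
    rw [L_eq hk (h k hk) unitSquare, div_div, le_div_iff₀ (by positivity), ← sq]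
    exact h1

/-- For every exponent `1 ≤ p ≤ ∞` there is a constant `c > 0` such that `|Ω| L p k Ω / k → c` as
`k → ∞`, for every nonempty bounded open set `Ω` of the plane; and `c ≤ L p k Q / k` for every `k`,
with the unit square `Q` of area `1`. -/
theorem result (p : ENNReal) (hp : 1 ≤ p) : ∃ c : ℝ, 0 < c ∧
    (∀ Ω : Set ℂ, IsOpen Ω → Ω.Nonempty → Bornology.IsBounded Ω →
      Tendsto (fun k : ℕ => (volume Ω).toReal * L p k Ω / (k : ℝ)) atTop (𝓝 c)) ∧
    ∀ k : ℕ, 1 ≤ k → c ≤ L p k unitSquare / (k : ℝ) := by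
  by_cases hp' : p = ⊤
  · refine main_of (N := HX.Ninf) (fun k hk x => ?_) HX.mean_Ninf
    have hk0 : (0 : ℝ) < k := by exact_mod_cast hk
    rw [if_pos hp']
    unfold HX.Ninf
    rw [Finset.coe_univ, Set.image_univ, Finset.card_univ, Fintype.card_fin,
      mul_div_cancel_left₀ _ hk0.ne']
    rfl
  · have hp1 : 1 ≤ p.toReal := by
      have := (ENNReal.toReal_le_toReal (by norm_num) hp').2 hp
      simpa using this
    refine main_of (N := HX.Np p.toReal) (fun k hk x => ?_) (HX.mean_Np hp1)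
    have hk0 : (0 : ℝ) < k := by exact_mod_cast hk
    rw [if_neg hp']
    unfold HX.Np
    rw [Finset.card_univ, Fintype.card_fin, mul_div_cancel_left₀ _ hk0.ne']

end Pool.Agent.Results.MP_042a34_an.LimitExists
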