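import Pool.Agent.W2helper13.HX.Hex

set_option autoImplicit false

/-!
# The limit in the hexagonal conjecture exists and does not depend on the domain

For every nonempty bounded open plane set `Ω` (connected or not, with no assumption on its boundary)
`|Ω| 𝔏_{k,1}(Ω) / k` converges as `k → ∞`, and the limit is one and the same constant `c` for all `Ω`.
The constant is the infimum of the energies `(∑ λ(P_i)) / m ^ 2` of all partitions of the unit square
into finitely many sets, and also of the energies of all lattice periodic partitions of the plane.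
Consequently the conjecture holds for one domain if and only if it holds for all, and if and only if
`∑ λ(P_i) ≥ m ^ 2 λ(hexagon)` for every `m`-partition of the unit square.
-/

open MeasureTheory Set Filter Topology

namespace Pool.Agent.Results.MP_042a34_an.LimitUniversal

/-- The first Dirichlet eigenvalue of an open set `D`: the infimum of the Rayleigh quotients of the
`C^1` functions, not identically zero, with compact support contained in `D`. -/
noncomputable def lam (D : Set ℂ) : ℝ :=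
  sInf {r : ℝ | ∃ φ : ℂ → ℝ, ContDiff ℝ 1 φ ∧ HasCompactSupport φ ∧
    tsupport φ ⊆ D ∧ φ ≠ 0 ∧ r = (∫ x, ‖fderiv ℝ φ x‖ ^ 2) / (∫ x, φ x ^ 2)}

/-- `k`-partitions of `Ω`: `k` nonempty, pairwise disjoint open subsets of `Ω`. -/
def IsPartition (Ω : Set ℂ) (k : ℕ) (P : Fin k → Set ℂ) : Prop :=
  (∀ i, IsOpen (P i) ∧ (P i).Nonempty ∧ P i ⊆ Ω) ∧ Pairwise (Function.onFun Disjoint P)

/-- `𝔏_{k,1}(Ω)`: the least mean of the first eigenvalues over the `k`-partitions of `Ω`. -/
noncomputable def L1 (Ω : Set ℂ) (k : ℕ) : ℝ :=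
  sInf {e : ℝ | ∃ P : Fin k → Set ℂ, IsPartition Ω k P ∧ e = (∑ i, lam (P i)) / (k : ℝ)}

/-- The open unit square. -/
def unitSquare : Set ℂ := {x | 0 < x.re ∧ x.re < 1 ∧ 0 < x.im ∧ x.im < 1}

/-- Generators of a lattice periodic partition of the plane: `m` bounded nonempty open sets all whose
translates by the vectors of the lattice `ℤ w1 + ℤ w2` are pairwise disjoint. -/
def IsPeriodic (w1 w2 : ℂ) (m : ℕ) (P : Fin m → Set ℂ) : Prop :=
  (∀ i, IsOpen (P i) ∧ (P i).Nonempty ∧ Bornology.IsBounded (P i)) ∧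
  ∀ i j : Fin m, ∀ a b : ℤ, ¬ (i = j ∧ a = 0 ∧ b = 0) →
    Disjoint (P i) ((fun x => x + (a * w1 + b * w2)) '' P j)

/-- The open regular hexagon of area one. -/
noncomputable def hexagon : Set ℂ :=
  interior (convexHull ℝ (Set.range (fun j : Fin 6 =>
    ((Real.sqrt (2 / (3 * Real.sqrt 3)) : ℝ) : ℂ) *
      Complex.exp (2 * (Real.pi : ℂ) * Complex.I * ((j : ℕ) : ℂ) / 6))))

/-- The assertion of Q1 for the set `Ω`. -/
def Q1 (Ω : Set ℂ) : Prop :=
  Tendsto (fun k : ℕ => (volume Ω).toReal * L1 Ω k / (k : ℝ)) atTop (𝓝 (lam hexagon))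

open Pool.Agent.W2helper13 in
theorem result :
    ∃ c : ℝ, 0 < c ∧ c ≤ lam hexagon ∧
      (∀ Ω : Set ℂ, IsOpen Ω → Ω.Nonempty → Bornology.IsBounded Ω →
        Tendsto (fun k : ℕ => (volume Ω).toReal * L1 Ω k / (k : ℝ)) atTop (𝓝 c)) ∧
      IsGLB {v : ℝ | ∃ m : ℕ, 1 ≤ m ∧ ∃ P : Fin m → Set ℂ, IsPartition unitSquare m P ∧
        v = (∑ i, lam (P i)) / (m : ℝ) ^ 2} c ∧
      IsGLB {v : ℝ | ∃ w1 w2 : ℂ, w1.re * w2.im - w1.im * w2.re ≠ 0 ∧ ∃ m : ℕ, 1 ≤ m ∧
        ∃ P : Fin m → Set ℂ, IsPeriodic w1 w2 m P ∧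
        v = |w1.re * w2.im - w1.im * w2.re| * (∑ i, lam (P i)) / (m : ℝ) ^ 2} c ∧
      ∀ Ω : Set ℂ, IsOpen Ω → Ω.Nonempty → Bornology.IsBounded Ω →
        (Q1 Ω ↔ ∀ (m : ℕ) (P : Fin m → Set ℂ), IsPartition unitSquare m P →
          (m : ℝ) ^ 2 * lam hexagon ≤ ∑ i, lam (P i)) := by
  have hlam : lam = HX.lam := rfl
  have hhex : hexagon = HX.hexagon := rfl
  have hpart : ∀ Ω k P, IsPartition Ω k P ↔ HX.IsPart Ω k P := fun _ _ _ => Iff.rfl
  have hL1 : L1 = HX.L1 := rfl
  have hus : unitSquare = HX.sq 0 1 := by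
    ext x
    simp [unitSquare, HX.sq]
  have hvals : {v : ℝ | ∃ m : ℕ, 1 ≤ m ∧ ∃ P : Fin m → Set ℂ, IsPartition unitSquare m P ∧
        v = (∑ i, lam (P i)) / (m : ℝ) ^ 2} = HX.vals := by
    rw [hus]; rfl
  have hper : {v : ℝ | ∃ w1 w2 : ℂ, w1.re * w2.im - w1.im * w2.re ≠ 0 ∧ ∃ m : ℕ, 1 ≤ m ∧
        ∃ P : Fin m → Set ℂ, IsPeriodic w1 w2 m P ∧
        v = |w1.re * w2.im - w1.im * w2.re| * (∑ i, lam (P i)) / (m : ℝ) ^ 2} = HX.perVals := by
    ext v
    constructor
    · rintro ⟨w1, w2, h, m, hm, P, ⟨h1, h2⟩, h3⟩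
      exact ⟨w1, w2, h, m, hm, P, h1, h2, h3⟩
    · rintro ⟨w1, w2, h, m, hm, P, h1, h2, h3⟩
      exact ⟨w1, w2, h, m, hm, P, ⟨h1, h2⟩, h3⟩
  have hlim : ∀ Ω : Set ℂ, IsOpen Ω → Ω.Nonempty → Bornology.IsBounded Ω →
        Tendsto (fun k : ℕ => (volume Ω).toReal * L1 Ω k / (k : ℝ)) atTop (𝓝 HX.cst) :=
    fun Ω h1 h2 h3 => HX.main_tendsto h1 h2 h3
  have hle : HX.cst ≤ lam hexagon := HX.cst_le_hex
  refine ⟨HX.cst, HX.cst_pos, hle, hlim, ?_, ?_, ?_⟩
  · rw [hvals]; exact HX.isGLB_vals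
  · rw [hper]; exact HX.isGLB_perVals
  · intro Ω h1 h2 h3
    have hiff : Q1 Ω ↔ HX.cst = lam hexagon := by
      constructor
      · intro h
        exact tendsto_nhds_unique (hlim Ω h1 h2 h3) h
      · intro h
        have := hlim Ω h1 h2 h3
        rw [h] at this
        exact this
    rw [hiff]
    constructor
    · intro h m P hP
      rcases Nat.eq_zero_or_pos m with hm | hm
      · subst hm; simp
      · have hmR : (0:ℝ) < m := by exact_mod_cast hm
        have h4 : HX.cst ≤ (∑ i, lam (P i)) / (m : ℝ) ^ 2 := by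
          apply HX.isGLB_vals.1
          rw [← hvals]
          exact ⟨m, hm, P, hP, rfl⟩
        rw [le_div_iff₀ (by positivity), h] at h4
        linarith
    · intro h
      apply le_antisymm hle
      apply HX.isGLB_vals.2
      rw [← hvals]
      rintro v ⟨m, hm, P, hP, rfl⟩
      have hmR : (0:ℝ) < m := by exact_mod_cast hm
      rw [le_div_iff₀ (by positivity)]
      have := h m P hP
      linarith

end Pool.Agent.Results.MP_042a34_an.LimitUniversal
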